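import Pool.Agent.Y6.K.Stm

/-! Facts on the levels of the chain. -/

open Set Filter Topology MeasureTheory

set_option autoImplicit false

namespace Pool.Agent.Y809.EK

open Pool.Agent.Y5 Pool.Agent.Y5.D Pool.Agent.Y6.K
open Pool.Agent.Y302.Trunc (Lev am sg rho rb L Lx f co toK sql mem_Lev_iff sg_pos mem_Lev
  exists_of_mem_Lev neg_mem_Lev am_neg am_orth am_smul sum_low rb_of_mem nodup_Lx smul_toK_inj
  Lx_eq LevX toK_sub toK_add)

lemma inner_ivec (a b : Fin 3 → ℤ) :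
    inner ℝ (ivec a) (ivec b) = ((∑ p, a p * b p : ℤ) : ℝ) := by
  rw [PiLp.inner_apply]
  push_cast
  refine Finset.sum_congr rfl fun p _ => ?_
  simp only [ivec, RCLike.inner_apply, conj_trivial]
  ring

lemma vec_eq (k : Z3) : vec k = ivec k := rfl

lemma norm_vec (k : Z3) : ‖vec k‖ ^ 2 = ((sql k : ℤ) : ℝ) := by
  rw [← real_inner_self_eq_norm_sq, vec_eq, inner_ivec]
  congr 1
  unfold sql
  exact Finset.sum_congr rfl fun p _ => by ring

lemma mem_lev (n : ℕ) (k : Z3) : k ∈ Lev 1 n ↔ ‖vec k‖ ^ 2 = (rho 1 n : ℝ) := by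
  have h := @mem_Lev_iff 0 n k
  rw [pow_zero] at h
  rw [norm_vec, h, Int.cast_inj]

lemma card_lev (n : ℕ) : (Lev 1 n).card = 24 := by
  unfold Lev LevX
  rw [Finset.card_image_of_injective _ (smul_toK_inj (sg_pos one_pos n).ne'),
    List.toFinset_card_of_nodup (nodup_Lx _ (Nat.mod_lt _ (by norm_num)).le)]
  have h : ∀ i < 4, (Lx i).length = 24 := by decide +kernel
  exact h _ (Nat.mod_lt _ (by norm_num))

lemma sg_eq (n : ℕ) : sg 1 n = 8 ^ (n / 4) := by
  unfold sg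
  simp

lemma rho_eq (n : ℕ) : rho 1 n = 64 ^ (n / 4) * rb (n % 4) := by
  unfold rho
  rw [sg_eq, ← pow_mul, mul_comm (n / 4) 2, pow_mul]
  norm_num

lemma rb_bd : ∀ i < 4, 1 ≤ rb i ∧ rb i ≤ 208 := by decide

lemma rho_pos (n : ℕ) : 0 < rho 1 n := by
  rw [rho_eq]
  have := (rb_bd (n % 4) (Nat.mod_lt _ (by norm_num))).1
  positivity

lemma zero_notMem (n : ℕ) : (0 : Z3) ∉ Lev 1 n := by
  intro h
  rw [mem_lev] at h
  have h1 : vec 0 = 0 := by
    ext i
    simp [vec]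
  rw [h1, norm_zero] at h
  have h2 := rho_pos n
  have h3 : (0 : ℝ) < (rho 1 n : ℝ) := by exact_mod_cast h2
  norm_num at h
  linarith

lemma rho_step (m : ℕ) : rho 1 m ≤ rho 1 (m + 1) ∧ 4 * rho 1 m < rho 1 (m + 2) := by
  have hp : (0 : ℤ) < 64 ^ (m / 4) := by positivity
  have h : m % 4 = 0 ∨ m % 4 = 1 ∨ m % 4 = 2 ∨ m % 4 = 3 := by omega
  rw [rho_eq, rho_eq, rho_eq]
  rcases h with h | h | h | h
  · have h1 : (m + 1) / 4 = m / 4 := by omega
    have h2 : (m + 1) % 4 = 1 := by omega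
    have h3 : (m + 2) / 4 = m / 4 := by omega
    have h4 : (m + 2) % 4 = 2 := by omega
    rw [h, h1, h2, h3, h4]
    simp only [rb]
    constructor <;> linarith
  · have h1 : (m + 1) / 4 = m / 4 := by omega
    have h2 : (m + 1) % 4 = 2 := by omega
    have h3 : (m + 2) / 4 = m / 4 := by omega
    have h4 : (m + 2) % 4 = 3 := by omega
    rw [h, h1, h2, h3, h4]
    simp only [rb]
    constructor <;> linarith
  · have h1 : (m + 1) / 4 = m / 4 := by omega
    have h2 : (m + 1) % 4 = 3 := by omega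
    have h3 : (m + 2) / 4 = m / 4 + 1 := by omega
    have h4 : (m + 2) % 4 = 0 := by omega
    rw [h, h1, h2, h3, h4, pow_succ]
    simp only [rb]
    constructor <;> linarith
  · have h1 : (m + 1) / 4 = m / 4 + 1 := by omega
    have h2 : (m + 1) % 4 = 0 := by omega
    have h3 : (m + 2) / 4 = m / 4 + 1 := by omega
    have h4 : (m + 2) % 4 = 1 := by omega
    rw [h, h1, h2, h3, h4, pow_succ]
    simp only [rb]
    constructor <;> linarith

lemma rho_mono : Monotone fun n => rho 1 n := monotone_nat_of_le_succ fun n => (rho_step n).1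

lemma low_sum {n m : ℕ} {k l : Z3} (hk : k ∈ Lev 1 n) (hl : l ∈ Lev 1 m) (h : k + l ≠ 0) :
    (64 : ℝ) ^ (n / 4) ≤ 4096 * ‖vec (k + l)‖ ^ 2 := by
  obtain ⟨p, hp⟩ : ∃ p, sg 1 n ≤ 64 * |(k + l) p| := by
    rcases le_total n m with hnm | hnm
    · obtain ⟨p, hp⟩ := sum_low one_pos hnm hk hl h
      refine ⟨p, le_trans ?_ hp⟩
      rw [sg_eq, sg_eq]
      exact pow_le_pow_right₀ (by norm_num) (Nat.div_le_div_right hnm)
    · obtain ⟨p, hp⟩ := sum_low one_pos hnm hl hk (by rwa [add_comm])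
      refine ⟨p, ?_⟩
      rwa [add_comm] at hp
  have h1 : (k + l) p ^ 2 ≤ sql (k + l) :=
    Finset.single_le_sum (f := fun i => (k + l) i ^ 2) (fun _ _ => sq_nonneg _) (Finset.mem_univ p)
  have h2 : sg 1 n ^ 2 ≤ (64 * |(k + l) p|) ^ 2 :=
    pow_le_pow_left₀ (sg_pos one_pos n).le hp 2
  rw [mul_pow, sq_abs] at h2
  have h3 : sg 1 n ^ 2 = 64 ^ (n / 4) := by
    rw [sg_eq, ← pow_mul, mul_comm (n / 4) 2, pow_mul]
    norm_num
  rw [norm_vec]
  have h4 : (64 : ℤ) ^ (n / 4) ≤ 4096 * sql (k + l) := by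
    rw [← h3]
    linarith
  exact_mod_cast h4

/-! ### The idle frequencies -/

/-- the idle frequencies, also of the next block -/
def kx : ℕ → ℤ × ℤ × ℤ
  | 4 => (24, 8, 8)
  | i => κb i

lemma kx_check : ∀ i < 4, κb i ∈ L i ∧ kx (i + 1) - κb i ∉ L i ∧ kx (i + 1) + κb i ∉ L i := by
  decide +kernel

lemma kappa_succ (n : ℕ) : κ (n + 1) = sg 1 n • toK (kx (n % 4 + 1)) := by
  unfold κ
  rw [sg_eq, sg_eq]
  have h : n % 4 = 0 ∨ n % 4 = 1 ∨ n % 4 = 2 ∨ n % 4 = 3 := by omega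
  rcases h with h | h | h | h
  · have h1 : (n + 1) / 4 = n / 4 := by omega
    have h2 : (n + 1) % 4 = 1 := by omega
    rw [h, h1, h2]
    rfl
  · have h1 : (n + 1) / 4 = n / 4 := by omega
    have h2 : (n + 1) % 4 = 2 := by omega
    rw [h, h1, h2]
    rfl
  · have h1 : (n + 1) / 4 = n / 4 := by omega
    have h2 : (n + 1) % 4 = 3 := by omega
    rw [h, h1, h2]
    rfl
  · have h1 : (n + 1) / 4 = n / 4 + 1 := by omega
    have h2 : (n + 1) % 4 = 0 := by omega
    rw [h, h1, h2, pow_succ, mul_smul]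
    congr 1
    funext p
    fin_cases p <;> rfl

lemma kappa_mem (n : ℕ) : κ n ∈ Lev 1 n :=
  (mem_Lev one_pos).2 (kx_check _ (Nat.mod_lt _ (by norm_num))).1

lemma kappa_sub (n : ℕ) : κ (n + 1) - κ n ∉ Lev 1 n := by
  rw [kappa_succ, κ, ← smul_sub, ← toK_sub, mem_Lev one_pos]
  exact (kx_check _ (Nat.mod_lt _ (by norm_num))).2.1

lemma kappa_add (n : ℕ) : κ (n + 1) + κ n ∉ Lev 1 n := by
  rw [kappa_succ, κ, ← smul_add, ← toK_add, mem_Lev one_pos]
  exact (kx_check _ (Nat.mod_lt _ (by norm_num))).2.2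

lemma kappa_ne_neg (n : ℕ) : κ n ≠ -κ n := by
  intro h
  have h1 : κ n = 0 := by
    funext p
    have h2 := congrFun h p
    rw [Pi.neg_apply] at h2
    rw [Pi.zero_apply]
    omega
  have h2 := kappa_mem n
  rw [h1] at h2
  exact zero_notMem n h2

/-! ### The modes -/

lemma nrm_pos (i : ℕ) : 0 < nrm i := by
  unfold nrm
  split <;> norm_num

lemma Em_mem {n : ℕ} {k : Z3} (h : k ∈ Lev 1 n) :
    Em n k = (√(nrm (n % 4)))⁻¹ • ivec (am 1 n k) := by
  unfold Em
  rw [if_pos h]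

lemma Em_not {n : ℕ} {k : Z3} (h : k ∉ Lev 1 n) : Em n k = 0 := by
  unfold Em
  rw [if_neg h]

lemma ivec_neg (a : Fin 3 → ℤ) : ivec (-a) = -ivec a := by
  ext i
  simp [ivec]

lemma OT_Em (n : ℕ) : OT (Em n) where
  odd := by
    intro k
    by_cases h : k ∈ Lev 1 n
    · have h1 := neg_mem_Lev one_pos h
      rw [Em_mem h, Em_mem h1, ← smul_neg, ← ivec_neg]
      congr 2
      funext p
      exact am_neg one_pos h p
    · have h1 : -k ∉ Lev 1 n := by
        intro h2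
        have h3 := neg_mem_Lev one_pos h2
        rw [neg_neg] at h3
        exact h h3
      rw [Em_not h, Em_not h1, neg_zero]
  tan := by
    intro k
    by_cases h : k ∈ Lev 1 n
    · rw [Em_mem h, inner_smul_right, vec_eq, inner_ivec]
      have h1 : ∑ p, k p * am 1 n k p = 0 := by
        rw [← am_orth one_pos h]
        exact Finset.sum_congr rfl fun p _ => mul_comm _ _
      rw [h1, Int.cast_zero, mul_zero]
    · rw [Em_not h, inner_zero_right]

/-- integral direction of the idle mode -/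
def bz (i : ℕ) : Fin 3 → ℤ := if i % 2 = 0 then ![0, -1, 1] else ![1, 0, 0]

lemma bz_check : ∀ i < 4, (∑ p : Fin 3, co p (κb i) * bz i p = 0) ∧
    (∑ p : Fin 3, f i (co p (κb i)) * bz i p = 0) := by
  decide +kernel

lemma bdir_eq (n : ℕ) : ∃ β : ℝ, bdir n = β • ivec (bz (n % 4)) := by
  have h0 : (n % 4) % 2 = n % 2 := by omega
  unfold bdir bz
  rw [h0]
  split_ifs
  · exact ⟨_, rfl⟩
  · exact ⟨1, (one_smul _ _).symm⟩

lemma bdir_norm (n : ℕ) : inner ℝ (bdir n) (bdir n) = (1 : ℝ) := by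
  unfold bdir
  split_ifs
  · rw [inner_smul_left, inner_smul_right, inner_ivec]
    have h1 : (∑ p : Fin 3, (![0, -1, 1] : Fin 3 → ℤ) p * (![0, -1, 1] : Fin 3 → ℤ) p) = 2 := by
      decide
    rw [h1]
    have h2 : √2 * √2 = (2 : ℝ) := Real.mul_self_sqrt (by norm_num)
    have h3 : √(2 : ℝ) ≠ 0 := by positivity
    simp only [conj_trivial]
    field_simp
    push_cast
    nlinarith
  · rw [inner_ivec]
    have h1 : (∑ p : Fin 3, (![1, 0, 0] : Fin 3 → ℤ) p * (![1, 0, 0] : Fin 3 → ℤ) p) = 1 := by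
      decide
    rw [h1, Int.cast_one]

lemma kappa_bdir (n : ℕ) : inner ℝ (vec (κ n)) (bdir n) = (0 : ℝ) := by
  obtain ⟨β, hβ⟩ := bdir_eq n
  rw [hβ, inner_smul_right, vec_eq, inner_ivec]
  have h1 : ∑ p, κ n p * bz (n % 4) p = 0 := by
    have h2 := (bz_check _ (Nat.mod_lt n (by norm_num : 0 < 4))).1
    calc ∑ p, κ n p * bz (n % 4) p = ∑ p : Fin 3, sg 1 n * (co p (κb (n % 4)) * bz (n % 4) p) := by
          refine Finset.sum_congr rfl fun p _ => ?_
          rw [κ, Pi.smul_apply, smul_eq_mul, toK]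
          ring
      _ = 0 := by rw [← Finset.mul_sum, h2, mul_zero]
  rw [h1, Int.cast_zero, mul_zero]

lemma am_bdir (n : ℕ) : inner ℝ (ivec (am 1 n (κ n))) (bdir n) = (0 : ℝ) := by
  obtain ⟨β, hβ⟩ := bdir_eq n
  rw [hβ, inner_smul_right, inner_ivec]
  have h1 : ∑ p, am 1 n (κ n) p * bz (n % 4) p = 0 := by
    have h2 := (bz_check _ (Nat.mod_lt n (by norm_num : 0 < 4))).2
    rw [← h2]
    refine Finset.sum_congr rfl fun p _ => ?_
    rw [κ, am_smul one_pos]
  rw [h1, Int.cast_zero, mul_zero]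

lemma Ym_pos (n : ℕ) : Ym n (κ n) = (√2)⁻¹ • bdir n := by
  unfold Ym
  rw [if_pos rfl]

lemma Ym_neg (n : ℕ) : Ym n (-κ n) = -((√2)⁻¹ • bdir n) := by
  unfold Ym
  rw [if_neg (kappa_ne_neg n).symm, if_pos rfl]

lemma Ym_not {n : ℕ} {k : Z3} (h1 : k ≠ κ n) (h2 : k ≠ -κ n) : Ym n k = 0 := by
  unfold Ym
  rw [if_neg h1, if_neg h2]

lemma OT_Ym (n : ℕ) : OT (Ym n) where
  odd := by
    intro k
    by_cases h1 : k = κ n
    · rw [h1, Ym_pos, Ym_neg]
    · by_cases h2 : k = -κ n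
      · rw [h2, neg_neg, Ym_pos, Ym_neg, neg_neg]
      · rw [Ym_not h1 h2, Ym_not (fun h => h2 (by rw [← h, neg_neg]))
          (fun h => h1 (neg_injective h)), neg_zero]
  tan := by
    intro k
    by_cases h1 : k = κ n
    · rw [h1, Ym_pos, inner_smul_right, kappa_bdir, mul_zero]
    · by_cases h2 : k = -κ n
      · rw [h2, Ym_neg, vec_eq, ivec_neg, ← vec_eq, inner_neg_neg, inner_smul_right, kappa_bdir,
          mul_zero]
      · rw [Ym_not h1 h2, inner_zero_right]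

/-- sums of the squares of the amplitudes -/
def nz : ℕ → ℤ
  | 0 => 528 | 1 => 240 | 2 => 264 | _ => 312

lemma nz_check : ∀ i < 4, ((Lx i).map fun v => ∑ p : Fin 3, f i (co p v) * f i (co p v)).sum =
    nz i := by
  decide +kernel

lemma nz_eq (i : ℕ) : nrm i = (nz i : ℝ) := by
  match i with
  | 0 => norm_num [nrm, nz]
  | 1 => norm_num [nrm, nz]
  | 2 => norm_num [nrm, nz]
  | (i + 3) =>
    change (312 : ℝ) = ((312 : ℤ) : ℝ)
    norm_num

lemma sum_am (n : ℕ) : ∑ k ∈ Lev 1 n, ∑ p, am 1 n k p * am 1 n k p = nz (n % 4) := by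
  have hi : n % 4 < 4 := Nat.mod_lt _ (by norm_num)
  have h1 : Lev 1 n = ((Lx (n % 4)).toFinset).image fun v => sg 1 n • toK v := rfl
  rw [h1, Finset.sum_image fun x _ y _ h => smul_toK_inj (sg_pos one_pos n).ne' h]
  rw [← nz_check _ hi, ← List.sum_toFinset _ (nodup_Lx _ hi.le)]
  refine Finset.sum_congr rfl fun v _ => Finset.sum_congr rfl fun p _ => ?_
  rw [am_smul one_pos]

lemma pair_Em (n : ℕ) : pair (Em n) (Em n) = 1 := by
  unfold pair
  rw [tsum_eq_sum (s := Lev 1 n) (fun k hk => by rw [Em_not hk, inner_zero_left])]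
  have h1 : ∀ k ∈ Lev 1 n, (inner ℝ (Em n k) (Em n k) : ℝ) =
      (nrm (n % 4))⁻¹ * ((∑ p, am 1 n k p * am 1 n k p : ℤ) : ℝ) := by
    intro k hk
    rw [Em_mem hk, inner_smul_left, inner_smul_right, inner_ivec, ← mul_assoc]
    congr 1
    simp only [conj_trivial]
    rw [← mul_inv, Real.mul_self_sqrt (nrm_pos _).le]
  rw [Finset.sum_congr rfl h1, ← Finset.mul_sum, ← Int.cast_sum, sum_am, ← nz_eq]
  exact inv_mul_cancel₀ (nrm_pos _).ne'

lemma tsum_kappa (n : ℕ) (g : Z3 → ℝ) (h : ∀ k, k ≠ κ n → k ≠ -κ n → g k = 0) :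
    ∑' k, g k = g (κ n) + g (-κ n) := by
  classical
  rw [tsum_eq_sum (s := {κ n, -κ n}), Finset.sum_pair (kappa_ne_neg n)]
  intro k hk
  rw [Finset.mem_insert, Finset.mem_singleton, not_or] at hk
  exact h k hk.1 hk.2

lemma pair_Ym (n : ℕ) : pair (Ym n) (Ym n) = 1 := by
  unfold pair
  rw [tsum_kappa n _ (fun k h1 h2 => by rw [Ym_not h1 h2, inner_zero_left]), Ym_pos, Ym_neg,
    inner_neg_neg, inner_smul_left, inner_smul_right, bdir_norm]
  have h2 : √2 * √2 = (2 : ℝ) := Real.mul_self_sqrt (by norm_num)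
  have h3 : √(2 : ℝ) ≠ 0 := by positivity
  simp only [conj_trivial]
  field_simp
  nlinarith

lemma pair_EY (n : ℕ) : pair (Em n) (Ym n) = 0 := by
  unfold pair
  rw [tsum_kappa n _ (fun k h1 h2 => by rw [Ym_not h1 h2, inner_zero_right]), (OT_Em n).odd,
    (OT_Ym n).odd, inner_neg_neg, Em_mem (kappa_mem n), Ym_pos, inner_smul_left,
    inner_smul_right, am_bdir]
  simp

/-- CJ1 -/
theorem t_CJ1 : S_CJ1 := by
  refine ⟨mem_lev, fun n => ⟨card_lev n, fun k hk => neg_mem_Lev one_pos hk, zero_notMem n⟩,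
    fun n m k hk l hl h => low_sum hk hl h, ?_, ?_,
    fun n => ⟨kappa_mem n, kappa_sub n, kappa_add n⟩, ?_⟩
  · intro n
    have h1 := rb_bd (n % 4) (Nat.mod_lt _ (by norm_num))
    have h2 : (0 : ℤ) < 64 ^ (n / 4) := by positivity
    have h3 := rho_eq n
    constructor
    · have : (64 : ℤ) ^ (n / 4) ≤ rho 1 n := by
        rw [h3]
        nlinarith
      exact_mod_cast this
    · have : rho 1 n ≤ 208 * (64 : ℤ) ^ (n / 4) := by
        rw [h3]
        nlinarith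
      exact_mod_cast this
  · intro n m h
    by_contra hcon
    have h1 : rho 1 (m + 2) ≤ rho 1 n := rho_mono (show m + 2 ≤ n by omega)
    have h2 := (rho_step m).2
    have h3 : rho 1 n ≤ 4 * rho 1 m := by exact_mod_cast h
    linarith
  · intro n
    refine ⟨OT_Em n, OT_Ym n, pair_Em n, pair_Ym n, pair_EY n, fun k hk => ⟨Em_not hk, ?_⟩⟩
    refine Ym_not ?_ ?_
    · rintro rfl
      exact hk (kappa_mem n)
    · rintro rfl
      exact hk (neg_mem_Lev one_pos (kappa_mem n))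

end Pool.Agent.Y809.EK
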